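import Mathlib

set_option autoImplicit false

/-!
Final pattern check: from the trace theorem (all `N`-shaped words are present on some `k` positions)
to the exponential bound for admissible sets of permutations.
-/

namespace Pool.Agent.NShape

open Finset Classical

/-- the order of the word `inc (φ = 0) dec (φ = 1) inc (φ = 2)`. -/
def ord {k : ℕ} (φ : Fin k → Fin 3) (i j : Fin k) : Prop :=
  φ i < φ j ∨ (φ i = φ j ∧ if φ i = 1 then j < i else i < j)

lemma erdos_szekeres {α β : Type} [LinearOrder α] [LinearOrder β] (f : α → β) (b : ℕ) :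
    ∀ (a : ℕ) (S : Finset α), Set.InjOn f (S : Set α) → a * b < S.card →
      (∃ T ⊆ S, T.card = a + 1 ∧ ∀ i ∈ T, ∀ j ∈ T, i < j → f i < f j) ∨
      (∃ T ⊆ S, T.card = b + 1 ∧ ∀ i ∈ T, ∀ j ∈ T, i < j → f j < f i) := by
  intro a
  induction a with
  | zero =>
    intro S _ hS
    left
    obtain ⟨i, hi⟩ := card_pos.mp (by omega : 0 < S.card)
    refine ⟨{i}, by simpa using hi, by simp, ?_⟩
    intro i hi j hj hij
    simp only [mem_singleton] at hi hj
    subst hi; subst hj
    exact absurd hij (lt_irrefl _)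
  | succ a ih =>
    intro S hinj hS
    set E := S.filter (fun e => ∃ T ⊆ S, T.card = a + 1 ∧ (∀ i ∈ T, ∀ j ∈ T, i < j → f i < f j) ∧
      e ∈ T ∧ ∀ i ∈ T, i ≤ e) with hE
    have hES : E ⊆ S := filter_subset _ _
    by_cases hcase : a * b < (S \ E).card
    · rcases ih (S \ E) (hinj.mono (by exact_mod_cast sdiff_subset)) hcase with
        ⟨T, hT, hTc, hTi⟩ | ⟨T, hT, hTc, hTi⟩
      · exfalso
        have hne : T.Nonempty := card_pos.mp (by omega)
        have hmem := T.max'_mem hne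
        have h1 := mem_sdiff.mp (hT hmem)
        exact h1.2 (mem_filter.mpr ⟨h1.1, T, hT.trans sdiff_subset, hTc, hTi, hmem,
          fun i hi => le_max' _ _ hi⟩)
      · exact Or.inr ⟨T, hT.trans sdiff_subset, hTc, hTi⟩
    · have h1 : (S \ E).card = S.card - E.card := card_sdiff_of_subset hES
      have h2 := card_le_card hES
      have h3 : b < E.card := by
        have : (a + 1) * b = a * b + b := by ring
        omega
      by_cases hdec : ∀ i ∈ E, ∀ j ∈ E, i < j → f j < f i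
      · obtain ⟨T, hT, hTc⟩ := exists_subset_card_eq (by omega : b + 1 ≤ E.card)
        exact Or.inr ⟨T, hT.trans hES, hTc, fun i hi j hj => hdec i (hT hi) j (hT hj)⟩
      · push Not at hdec
        obtain ⟨i, hi, j, hj, hij, hfij⟩ := hdec
        have hfij' : f i < f j := by
          refine lt_of_le_of_ne hfij ?_
          intro h
          exact absurd (hinj (mem_coe.mpr (hES hi)) (mem_coe.mpr (hES hj)) h) (ne_of_lt hij)
        obtain ⟨_, T, hT, hTc, hTi, hiT, hle⟩ := mem_filter.mp hi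
        left
        refine ⟨insert j T, ?_, ?_, ?_⟩
        · intro t ht
          rcases mem_insert.mp ht with rfl | h
          · exact hES hj
          · exact hT h
        · rw [card_insert_of_notMem, hTc]
          intro h
          exact absurd (hle j h) (not_le.mpr hij)
        · intro s hs t ht hst
          have hmono : ∀ s ∈ T, f s ≤ f i := by
            intro s hs
            rcases lt_or_eq_of_le (hle s hs) with h | h
            · exact (hTi s hs i hiT h).le
            · rw [h]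
          rcases mem_insert.mp hs with rfl | hs' <;> rcases mem_insert.mp ht with rfl | ht'
          · exact absurd hst (lt_irrefl _)
          · exact absurd (hst.trans_le (hle t ht')) (not_lt.mpr hij.le)
          · exact lt_of_le_of_lt (hmono s hs') hfij'
          · exact hTi s hs' t ht' hst

lemma check {k n m : ℕ} (x : Fin k → Fin n) (P : Finset (Equiv.Perm (Fin n)))
    (hx : ∀ φ : Fin k → Fin 3, ∃ π ∈ P, ∀ i j, π (x i) < π (x j) ↔ ord φ i j)
    (g : Fin m → Fin k) (hg : Function.Injective g) (f : Fin m → Fin n)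
    (hf : ∀ i, x (g i) = f i) (ψ : Fin m → Fin 3) :
    ∃ π ∈ P, ∀ i j, π (f i) < π (f j) ↔
      (ψ i < ψ j ∨ (ψ i = ψ j ∧ if ψ i = 1 then g j < g i else g i < g j)) := by
  obtain ⟨π, hπ, h⟩ := hx (Function.extend g ψ 0)
  refine ⟨π, hπ, fun i j => ?_⟩
  rw [← hf, ← hf, h]
  unfold ord
  rw [hg.extend_apply, hg.extend_apply]

theorem final_of_trace
    (hA : ∀ k : ℕ, ∃ T : ℕ, ∀ n : ℕ, ∀ P : Finset (Equiv.Perm (Fin n)), T ^ n < P.card →
      ∃ x : Fin k → Fin n, Function.Injective x ∧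
        ∀ φ : Fin k → Fin 3, ∃ π ∈ P, ∀ i j, π (x i) < π (x j) ↔ ord φ i j) :
    ∀ N : ℕ, 6 < N → ∃ C : ℝ, ∀ n : ℕ, ∀ P : Finset (Equiv.Perm (Fin n)),
    (∀ X : Finset (Fin n), X.card = N →
      ((∃ f : Fin 5 → Fin n, StrictMono f ∧ (∀ i, f i ∈ X) ∧
          ∀ π ∈ P, ∀ r : Fin 5, ¬ ∀ i j : Fin 5,
            (π (f i) < π (f j) ↔
              (![1, 3, 5, 2, 4] : Fin 5 → ℕ) (i + r) < (![1, 3, 5, 2, 4] : Fin 5 → ℕ) (j + r))) ∨
       (∃ f : Fin 5 → Fin n, StrictMono f ∧ (∀ i, f i ∈ X) ∧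
          ∀ π ∈ P, ∀ r : Fin 5, ¬ ∀ i j : Fin 5,
            (π (f i) < π (f j) ↔
              (![1, 4, 2, 5, 3] : Fin 5 → ℕ) (i + r) < (![1, 4, 2, 5, 3] : Fin 5 → ℕ) (j + r))) ∨
       (∃ f : Fin 6 → Fin n, StrictMono f ∧ (∀ i, f i ∈ X) ∧
          ∀ π ∈ P, ∀ r : Fin 6, ¬ ∀ i j : Fin 6,
            (π (f i) < π (f j) ↔
              (![1, 2, 3, 6, 5, 4] : Fin 6 → ℕ) (i + r) < (![1, 2, 3, 6, 5, 4] : Fin 6 → ℕ) (j + r))) ∨
       (∃ f : Fin 6 → Fin n, StrictMono f ∧ (∀ i, f i ∈ X) ∧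
          ∀ π ∈ P, ∀ r : Fin 6, ¬ ∀ i j : Fin 6,
            (π (f i) < π (f j) ↔
              (![1, 4, 5, 6, 3, 2] : Fin 6 → ℕ) (i + r) < (![1, 4, 5, 6, 3, 2] : Fin 6 → ℕ) (j + r))))) →
    (P.card : ℝ) ≤ C ^ n := by
  intro N hN
  obtain ⟨M, rfl⟩ : ∃ M, N = M + 1 := ⟨N - 1, by omega⟩
  obtain ⟨T, hT⟩ := hA (M * M + 1)
  refine ⟨T, fun n P hP => ?_⟩
  by_contra hcon
  push Not at hcon
  have hlt : T ^ n < P.card := by exact_mod_cast hcon
  obtain ⟨x, hxinj, hx⟩ := hT n P hlt
  have hES := erdos_szekeres x M M univ hxinj.injOn (by simp)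
  rcases hES with ⟨U, _, hUc, hU⟩ | ⟨U, _, hUc, hU⟩
  · -- increasing
    have hXc : (U.image x).card = M + 1 := by rw [card_image_of_injective _ hxinj, hUc]
    have key : ∀ {m : ℕ} (f : Fin m → Fin n), StrictMono f → (∀ i, f i ∈ U.image x) →
        ∀ ψ : Fin m → Fin 3, ∃ π ∈ P, ∀ i j, π (f i) < π (f j) ↔
          (ψ i < ψ j ∨ (ψ i = ψ j ∧ if ψ i = 1 then j < i else i < j)) := by
      intro m f hf hfX ψ
      choose g hgU hg using fun i => mem_image.mp (hfX i)
      have hgm : StrictMono g := by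
        intro i j hij
        rcases lt_trichotomy (g i) (g j) with h | h | h
        · exact h
        · exact absurd (hf hij) (by rw [← hg i, ← hg j, h]; exact lt_irrefl _)
        · have := hU _ (hgU j) _ (hgU i) h
          rw [hg, hg] at this
          exact absurd this (not_lt.mpr (hf hij).le)
      obtain ⟨π, hπ, h⟩ := check x P hx g hgm.injective f hg ψ
      refine ⟨π, hπ, fun i j => ?_⟩
      rw [h, hgm.lt_iff_lt, hgm.lt_iff_lt]
    rcases hP _ hXc with ⟨f, hf, hfX, h⟩ | ⟨f, hf, hfX, h⟩ | ⟨f, hf, hfX, h⟩ | ⟨f, hf, hfX, h⟩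
    · obtain ⟨π, hπ, h2⟩ := key f hf hfX ![1, 0, 1, 2, 1]
      refine h π hπ 4 fun i j => ?_
      rw [h2]
      revert i j; decide
    · obtain ⟨π, hπ, h2⟩ := key f hf hfX ![0, 1, 0, 2, 1]
      refine h π hπ 0 fun i j => ?_
      rw [h2]
      revert i j; decide
    · obtain ⟨π, hπ, h2⟩ := key f hf hfX ![0, 0, 0, 1, 1, 1]
      refine h π hπ 0 fun i j => ?_
      rw [h2]
      revert i j; decide
    · obtain ⟨π, hπ, h2⟩ := key f hf hfX ![0, 2, 2, 2, 1, 1]
      refine h π hπ 0 fun i j => ?_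
      rw [h2]
      revert i j; decide
  · -- decreasing
    have hXc : (U.image x).card = M + 1 := by rw [card_image_of_injective _ hxinj, hUc]
    have key : ∀ {m : ℕ} (f : Fin m → Fin n), StrictMono f → (∀ i, f i ∈ U.image x) →
        ∀ ψ : Fin m → Fin 3, ∃ π ∈ P, ∀ i j, π (f i) < π (f j) ↔
          (ψ i < ψ j ∨ (ψ i = ψ j ∧ if ψ i = 1 then i < j else j < i)) := by
      intro m f hf hfX ψ
      choose g hgU hg using fun i => mem_image.mp (hfX i)
      have hgm : StrictAnti g := by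
        intro i j hij
        rcases lt_trichotomy (g j) (g i) with h | h | h
        · exact h
        · exact absurd (hf hij) (by rw [← hg i, ← hg j, h]; exact lt_irrefl _)
        · have := hU _ (hgU i) _ (hgU j) h
          rw [hg, hg] at this
          exact absurd this (not_lt.mpr (hf hij).le)
      obtain ⟨π, hπ, h⟩ := check x P hx g hgm.injective f hg ψ
      refine ⟨π, hπ, fun i j => ?_⟩
      rw [h, hgm.lt_iff_gt, hgm.lt_iff_gt]
    rcases hP _ hXc with ⟨f, hf, hfX, h⟩ | ⟨f, hf, hfX, h⟩ | ⟨f, hf, hfX, h⟩ | ⟨f, hf, hfX, h⟩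
    · obtain ⟨π, hπ, h2⟩ := key f hf hfX ![1, 2, 0, 1, 0]
      refine h π hπ 1 fun i j => ?_
      rw [h2]
      revert i j; decide
    · obtain ⟨π, hπ, h2⟩ := key f hf hfX ![1, 2, 1, 0, 1]
      refine h π hπ 2 fun i j => ?_
      rw [h2]
      revert i j; decide
    · obtain ⟨π, hπ, h2⟩ := key f hf hfX ![1, 1, 2, 2, 2, 0]
      refine h π hπ 1 fun i j => ?_
      rw [h2]
      revert i j; decide
    · obtain ⟨π, hπ, h2⟩ := key f hf hfX ![1, 1, 1, 0, 0, 0]
      refine h π hπ 1 fun i j => ?_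
      rw [h2]
      revert i j; decide

end Pool.Agent.NShape
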