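import Mathlib

set_option autoImplicit false

/-!
Linear bound for N-shaped patterns in 0/1 matrices with unordered columns (Klazar-Valtr type
theorem), strict-row version.
-/

namespace Pool.Agent.NShape

open Finset Classical

/-- Letters above `x` (in the order given by `key`) having two elements strictly between the rows
`a` and `b`. -/
noncomputable def heavy {Λ K : Type} [LinearOrder K] (key : Λ → K)
    (M : Finset (ℕ × Λ × ℕ)) (x : Λ) (a b : ℕ) : Finset Λ :=
  (M.image (fun e => e.2.1)).filter (fun c => key x < key c ∧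
    ∃ e ∈ M, ∃ e' ∈ M, e.2.1 = c ∧ e'.2.1 = c ∧ a < e.1 ∧ e.1 < e'.1 ∧ e'.1 < b)

/-- collapse the open interval `(a,b)` to `a+1`. -/
def col (a b r : ℕ) : ℕ := if a < r ∧ r < b then a + 1 else r

lemma col_mono {a b : ℕ} (_hab : a + 1 < b) {r s : ℕ} (h : r ≤ s) : col a b r ≤ col a b s := by
  unfold col
  split_ifs <;> omega

lemma lt_of_col_lt {a b : ℕ} (hab : a + 1 < b) {r s : ℕ} (h : col a b r < col a b s) : r < s := by
  by_contra hc
  exact absurd (col_mono hab (not_lt.mp hc)) (not_le.mpr h)

lemma col_eq {a b : ℕ} (hab : a + 1 < b) {r s : ℕ} (h : col a b r = col a b s) :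
    r = s ∨ (a < r ∧ r < b ∧ a < s ∧ s < b) := by
  unfold col at h
  split_ifs at h <;> omega

theorem lemmaE {Λ K : Type} [LinearOrder K] (key : Λ → K) (κ : ℕ) :
    ∀ (N : ℕ) (M : Finset (ℕ × Λ × ℕ)), M.card ≤ N →
      (∀ e ∈ M, ∀ e' ∈ M, key e.2.1 = key e'.2.1 → e.2.1 = e'.2.1) →
      (∀ r x j j', (r, x, j) ∈ M → (r, x, j') ∈ M → j = j') →
      (∀ x j j' a b c, (a, x, j) ∈ M → (b, x, j) ∈ M → (c, x, j') ∈ M → a < c → c < b → j' = j) →
      (∀ x j a b, (a, x, j) ∈ M → (b, x, j) ∈ M → a < b → (heavy key M x a b).card ≤ κ) →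
      M.card ≤ (κ + 1) * (M.image Prod.fst).card + 3 * (M.image Prod.snd).card := by
  intro N
  induction N with
  | zero =>
    intro M hM _ _ _ _
    have : M.card = 0 := by omega
    omega
  | succ N ih =>
    intro M hM hkey hU hN hT
    rcases M.eq_empty_or_nonempty with hemp | hne
    · subst hemp; simp
    obtain ⟨e0, he0, hmin⟩ := M.exists_min_image (fun e => key e.2.1) hne
    obtain ⟨r0, x, j⟩ := e0
    simp only at hmin
    set S := M.filter (fun e => e.2 = (x, j)) with hS
    have hSM : S ⊆ M := filter_subset _ _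
    have he0S : (r0, x, j) ∈ S := by simp [hS, he0]
    have hxj : (x, j) ∈ M.image Prod.snd := mem_image.mpr ⟨_, he0, rfl⟩
    have hSinj : Set.InjOn Prod.fst (S : Set (ℕ × Λ × ℕ)) := by
      intro e he e' he' h
      have h1 := (mem_filter.mp (mem_coe.mp he)).2
      have h2 := (mem_filter.mp (mem_coe.mp he')).2
      exact Prod.ext h (h1.trans h2.symm)
    have hScard : (S.image Prod.fst).card = S.card := card_image_of_injOn hSinj
    have hSpos : 0 < S.card := card_pos.mpr ⟨_, he0S⟩
    by_cases ho : S.card ≤ 3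
    · -- delete S
      set M' := M \ S with hM'
      have hc : M'.card = M.card - S.card := card_sdiff_of_subset hSM
      have hle : S.card ≤ M.card := card_le_card hSM
      have hsub : M' ⊆ M := sdiff_subset
      have hih := ih M' (by omega) (fun e he e' he' => hkey e (hsub he) e' (hsub he'))
        (fun r y i i' h h' => hU r y i i' (hsub h) (hsub h'))
        (fun y i i' a b c h1 h2 h3 => hN y i i' a b c (hsub h1) (hsub h2) (hsub h3))
        (by
          intro y i a b h1 h2 hab
          refine le_trans (card_le_card ?_) (hT y i a b (hsub h1) (hsub h2) hab)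
          intro c hc
          simp only [heavy, mem_filter, mem_image] at hc ⊢
          obtain ⟨⟨e, he, hec⟩, hk, e1, he1, e2, he2, h⟩ := hc
          exact ⟨⟨e, hsub he, hec⟩, hk, e1, hsub he1, e2, hsub he2, h⟩)
      have hrows : (M'.image Prod.fst).card ≤ (M.image Prod.fst).card :=
        card_le_card (image_subset_image hsub)
      have hsegs : (M'.image Prod.snd).card + 1 ≤ (M.image Prod.snd).card := by
        have : M'.image Prod.snd ⊆ (M.image Prod.snd).erase (x, j) := by
          intro s hs
          obtain ⟨e, he, rfl⟩ := mem_image.mp hs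
          refine mem_erase.mpr ⟨?_, mem_image.mpr ⟨e, hsub he, rfl⟩⟩
          intro hh
          exact (mem_sdiff.mp he).2 (mem_filter.mpr ⟨hsub he, hh⟩)
        have h2 := card_le_card this
        rw [card_erase_of_mem hxj] at h2
        have : 0 < (M.image Prod.snd).card := card_pos.mpr ⟨_, hxj⟩
        omega
      have : (κ + 1) * (M'.image Prod.fst).card ≤ (κ + 1) * (M.image Prod.fst).card :=
        Nat.mul_le_mul_left _ hrows
      omega
    · -- contraction
      replace ho : 3 < S.card := not_le.mp ho
      have hRne : (S.image Prod.fst).Nonempty := ⟨_, mem_image.mpr ⟨_, he0S, rfl⟩⟩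
      set a := (S.image Prod.fst).min' hRne with ha
      set b := (S.image Prod.fst).max' hRne with hb
      have haS : (a, x, j) ∈ S := by
        obtain ⟨e, he, hea⟩ := mem_image.mp ((S.image Prod.fst).min'_mem hRne)
        have h2 := (mem_filter.mp he).2
        have : e = (a, x, j) := Prod.ext hea h2
        rwa [← this]
      have hbS : (b, x, j) ∈ S := by
        obtain ⟨e, he, hea⟩ := mem_image.mp ((S.image Prod.fst).max'_mem hRne)
        have h2 := (mem_filter.mp he).2
        have : e = (b, x, j) := Prod.ext hea h2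
        rwa [← this]
      have hSab : ∀ e ∈ S, a ≤ e.1 ∧ e.1 ≤ b := by
        intro e he
        exact ⟨min'_le _ _ (mem_image.mpr ⟨e, he, rfl⟩), le_max' _ _ (mem_image.mpr ⟨e, he, rfl⟩)⟩
      set Rm := (M.image Prod.fst).filter (fun r => a < r ∧ r < b) with hRm
      have hSle : S.card ≤ Rm.card + 2 := by
        have : S.image Prod.fst ⊆ insert a (insert b Rm) := by
          intro r hr
          obtain ⟨e, he, rfl⟩ := mem_image.mp hr
          have h1 := hSab e he
          simp only [mem_insert]
          by_cases h2 : e.1 = a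
          · exact Or.inl h2
          by_cases h3 : e.1 = b
          · exact Or.inr (Or.inl h3)
          refine Or.inr (Or.inr (mem_filter.mpr ⟨mem_image.mpr ⟨e, hSM he, rfl⟩, ?_⟩))
          omega
        calc S.card = (S.image Prod.fst).card := hScard.symm
          _ ≤ (insert a (insert b Rm)).card := card_le_card this
          _ ≤ (insert b Rm).card + 1 := card_insert_le _ _
          _ ≤ Rm.card + 2 := by have := card_insert_le b Rm; omega
      have hRm2 : 2 ≤ Rm.card := by omega
      have hab : a + 1 < b := by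
        obtain ⟨r1, hr1, r2, hr2, hne12⟩ := one_lt_card.mp (by omega : 1 < Rm.card)
        have h1 := (mem_filter.mp hr1).2
        have h2 := (mem_filter.mp hr2).2
        omega
      -- deleted part
      set Dl := M.filter (fun e => e ∉ S ∧ a < e.1 ∧ e.1 < b ∧
        ∃ e' ∈ M, e'.2.1 = e.2.1 ∧ a < e'.1 ∧ e'.1 < e.1) with hDl
      set M2 := M.filter (fun e => e ∉ S ∧ ¬ (a < e.1 ∧ e.1 < b ∧
        ∃ e' ∈ M, e'.2.1 = e.2.1 ∧ a < e'.1 ∧ e'.1 < e.1)) with hM2
      have hsplit : M.card ≤ S.card + Dl.card + M2.card := by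
        have : M ⊆ S ∪ Dl ∪ M2 := by
          intro e he
          by_cases h1 : e ∈ S
          · simp [h1]
          · by_cases h2 : (a < e.1 ∧ e.1 < b ∧
              ∃ e' ∈ M, e'.2.1 = e.2.1 ∧ a < e'.1 ∧ e'.1 < e.1)
            · have : e ∈ Dl := mem_filter.mpr ⟨he, h1, h2⟩
              simp [this]
            · have : e ∈ M2 := mem_filter.mpr ⟨he, h1, h2⟩
              simp [this]
        calc M.card ≤ (S ∪ Dl ∪ M2).card := card_le_card this
          _ ≤ (S ∪ Dl).card + M2.card := card_union_le _ _
          _ ≤ S.card + Dl.card + M2.card := by have := card_union_le S Dl; omega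
      have hM2M : M2 ⊆ M := filter_subset _ _
      -- bound on the deleted part
      have hDlcard : Dl.card ≤ κ * (Rm.card - 1) := by
        have hRmne : Rm.Nonempty := card_pos.mp (by omega)
        have hmaps : ∀ e ∈ Dl, (e.2.1, e.1) ∈
            (heavy key M x a b) ×ˢ (Rm.erase (Rm.min' hRmne)) := by
          intro e he
          obtain ⟨heM, heS, h1, h2, e', he', hl, h3, h4⟩ := mem_filter.mp he
          obtain ⟨r, y, i⟩ := e
          obtain ⟨r', y', i'⟩ := e'
          simp only at hl h1 h2 h3 h4 ⊢
          subst hl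
          have hyx : y' ≠ x := by
            rintro rfl
            have := hN y' j i a b r (hSM haS) (hSM hbS) heM h1 h2
            subst this
            exact heS (mem_filter.mpr ⟨heM, rfl⟩)
          have hk : key x < key y' := by
            rcases lt_or_eq_of_le (hmin _ heM) with h | h
            · exact h
            · exact absurd (hkey _ he0 _ heM h).symm hyx
          refine mem_product.mpr ⟨?_, ?_⟩
          · simp only [heavy, mem_filter, mem_image]
            exact ⟨⟨_, heM, rfl⟩, hk, _, he', _, heM, rfl, rfl, h3, h4, h2⟩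
          · refine mem_erase.mpr ⟨?_, mem_filter.mpr ⟨mem_image.mpr ⟨_, heM, rfl⟩, h1, h2⟩⟩
            have : Rm.min' hRmne ≤ r' :=
              min'_le _ _ (mem_filter.mpr ⟨mem_image.mpr ⟨_, he', rfl⟩, h3, by omega⟩)
            simp only
            omega
        have hinj : Set.InjOn (fun e : ℕ × Λ × ℕ => (e.2.1, e.1)) (Dl : Set (ℕ × Λ × ℕ)) := by
          intro e he e' he' h
          obtain ⟨r, y, i⟩ := e
          obtain ⟨r', y', i'⟩ := e'
          simp only [Prod.mk.injEq] at h
          obtain ⟨rfl, rfl⟩ := h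
          have := hU _ _ _ _ (mem_filter.mp (mem_coe.mp he)).1 (mem_filter.mp (mem_coe.mp he')).1
          subst this
          rfl
        calc Dl.card ≤ ((heavy key M x a b) ×ˢ (Rm.erase (Rm.min' hRmne))).card :=
              card_le_card_of_injOn _ hmaps hinj
          _ = (heavy key M x a b).card * (Rm.card - 1) := by
              rw [card_product, card_erase_of_mem (min'_mem _ _)]
          _ ≤ κ * (Rm.card - 1) := Nat.mul_le_mul_right _ (hT x j a b (hSM haS) (hSM hbS) (by omega))
      -- contraction
      set f : ℕ × Λ × ℕ → ℕ × Λ × ℕ := fun e => (col a b e.1, e.2) with hf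
      have hkeyfact : ∀ r r' y i i', (r, y, i) ∈ M2 → (r', y, i') ∈ M2 →
          a < r → r < b → a < r' → r' < b → r = r' := by
        intro r r' y i i' h h' h1 h2 h3 h4
        rcases lt_trichotomy r r' with hlt | heq | hgt
        · exact absurd ⟨h3, h4, _, hM2M h, rfl, h1, hlt⟩ (mem_filter.mp h').2.2
        · exact heq
        · exact absurd ⟨h1, h2, _, hM2M h', rfl, h3, hgt⟩ (mem_filter.mp h).2.2
      have hfinj : Set.InjOn f (M2 : Set (ℕ × Λ × ℕ)) := by
        intro e he e' he' h
        obtain ⟨r, y, i⟩ := e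
        obtain ⟨r', y', i'⟩ := e'
        simp only [hf, Prod.mk.injEq] at h
        obtain ⟨h1, rfl, rfl⟩ := h
        rcases col_eq hab h1 with h2 | ⟨h2, h3, h4, h5⟩
        · rw [h2]
        · rw [hkeyfact r r' y i i (mem_coe.mp he) (mem_coe.mp he') h2 h3 h4 h5]
      set M3 := M2.image f with hM3
      have hM3card : M3.card = M2.card := card_image_of_injOn hfinj
      have hM3mem : ∀ r y i, (r, y, i) ∈ M3 → ∃ r', (r', y, i) ∈ M2 ∧ col a b r' = r := by
        intro r y i h
        obtain ⟨e, he, hee⟩ := mem_image.mp h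
        obtain ⟨r', y', i'⟩ := e
        simp only [hf, Prod.mk.injEq] at hee
        obtain ⟨h1, rfl, rfl⟩ := hee
        exact ⟨r', he, h1⟩
      have hM2lt : M2.card < M.card := by
        refine card_lt_card ⟨hM2M, fun hsub => ?_⟩
        exact (mem_filter.mp (hsub he0)).2.1 he0S
      have hih := ih M3 (by omega)
        (by
          intro e he e' he' h
          obtain ⟨r, y, i⟩ := e
          obtain ⟨r', y', i'⟩ := e'
          obtain ⟨s, hs, _⟩ := hM3mem _ _ _ he
          obtain ⟨s', hs', _⟩ := hM3mem _ _ _ he'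
          exact hkey (s, y, i) (hM2M hs) (s', y', i') (hM2M hs') h)
        (by
          intro r y i i' h h'
          obtain ⟨s, hs, hsr⟩ := hM3mem _ _ _ h
          obtain ⟨s', hs', hsr'⟩ := hM3mem _ _ _ h'
          have hss : s = s' := by
            rcases col_eq hab (hsr.trans hsr'.symm) with h2 | ⟨h2, h3, h4, h5⟩
            · exact h2
            · exact hkeyfact _ _ _ _ _ hs hs' h2 h3 h4 h5
          subst hss
          exact hU _ _ _ _ (hM2M hs) (hM2M hs'))
        (by
          intro y i i' r1 r2 r3 h1 h2 h3 h4 h5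
          obtain ⟨s1, hs1, rfl⟩ := hM3mem _ _ _ h1
          obtain ⟨s2, hs2, rfl⟩ := hM3mem _ _ _ h2
          obtain ⟨s3, hs3, rfl⟩ := hM3mem _ _ _ h3
          exact hN _ _ _ _ _ _ (hM2M hs1) (hM2M hs2) (hM2M hs3) (lt_of_col_lt hab h4)
            (lt_of_col_lt hab h5))
        (by
          intro y i r1 r2 h1 h2 h12
          obtain ⟨s1, hs1, rfl⟩ := hM3mem _ _ _ h1
          obtain ⟨s2, hs2, rfl⟩ := hM3mem _ _ _ h2
          refine le_trans (card_le_card ?_)
            (hT y i s1 s2 (hM2M hs1) (hM2M hs2) (lt_of_col_lt hab h12))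
          intro c hc
          simp only [heavy, mem_filter, mem_image] at hc ⊢
          obtain ⟨_, hk, e1, he1, e2, he2, hc1, hc2, hl1, hl2, hl3⟩ := hc
          obtain ⟨u1, y1, i1⟩ := e1
          obtain ⟨u2, y2, i2⟩ := e2
          simp only at hc1 hc2 hl1 hl2 hl3
          subst hc1
          subst hc2
          obtain ⟨v1, hv1, rfl⟩ := hM3mem _ _ _ he1
          obtain ⟨v2, hv2, rfl⟩ := hM3mem _ _ _ he2
          exact ⟨⟨_, hM2M hv1, rfl⟩, hk, _, hM2M hv1, _, hM2M hv2, rfl, rfl,
            lt_of_col_lt hab hl1, lt_of_col_lt hab hl2, lt_of_col_lt hab hl3⟩)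
      have hrows : (M3.image Prod.fst).card + (Rm.card - 1) ≤ (M.image Prod.fst).card := by
        have hsub : M3.image Prod.fst ⊆ insert (a + 1) ((M.image Prod.fst) \ Rm) := by
          intro r hr
          obtain ⟨e, he, rfl⟩ := mem_image.mp hr
          obtain ⟨r, y, i⟩ := e
          obtain ⟨s, hs, rfl⟩ := hM3mem _ _ _ he
          simp only [mem_insert, mem_sdiff]
          unfold col
          split_ifs with h
          · left; rfl
          · right
            exact ⟨mem_image.mpr ⟨_, hM2M hs, rfl⟩, fun hh => h (mem_filter.mp hh).2⟩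
        have hRmsub : Rm ⊆ M.image Prod.fst := filter_subset _ _
        have h1 := card_le_card hsub
        have h2 := card_insert_le (a + 1) ((M.image Prod.fst) \ Rm)
        have h3 : ((M.image Prod.fst) \ Rm).card = (M.image Prod.fst).card - Rm.card :=
          card_sdiff_of_subset hRmsub
        have h4 := card_le_card hRmsub
        omega
      have hsegs : (M3.image Prod.snd).card + 1 ≤ (M.image Prod.snd).card := by
        have : M3.image Prod.snd ⊆ (M.image Prod.snd).erase (x, j) := by
          intro s0 hs0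
          obtain ⟨e, he, rfl⟩ := mem_image.mp hs0
          obtain ⟨r, y, i⟩ := e
          obtain ⟨s, hs, hsr⟩ := hM3mem _ _ _ he
          refine mem_erase.mpr ⟨?_, mem_image.mpr ⟨(s, y, i), hM2M hs, rfl⟩⟩
          intro hh
          exact (mem_filter.mp hs).2.1 (mem_filter.mpr ⟨hM2M hs, hh⟩)
        have h2 := card_le_card this
        rw [card_erase_of_mem hxj] at h2
        have : 0 < (M.image Prod.snd).card := card_pos.mpr ⟨_, hxj⟩
        omega
      -- final arithmetic
      obtain ⟨ρ, hρ⟩ : ∃ ρ, Rm.card = ρ + 1 := ⟨Rm.card - 1, by omega⟩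
      rw [hρ] at hrows hDlcard hSle
      simp only [Nat.add_sub_cancel] at hrows hDlcard
      have h5 : (κ + 1) * ((M3.image Prod.fst).card + ρ) ≤ (κ + 1) * (M.image Prod.fst).card :=
        Nat.mul_le_mul_left _ hrows
      rw [Nat.mul_add] at h5
      have h6 : (κ + 1) * ρ = κ * ρ + ρ := by ring
      omega

/-! ### Greedy marks -/

/-- Greedy marks of a set `Z` of rows with respect to a relation `H`: the first element is marked,
and the next mark after `a` is the first later element `b` with `H a b`. -/
def mark (Z : ℕ → Prop) (H : ℕ → ℕ → Prop) (b : ℕ) : Prop :=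
  Z b ∧ ((∀ c < b, ¬ Z c) ∨
    ∃ a, ∃ _ : a < b, mark Z H a ∧ (∀ c, ∀ _ : c < b, a < c → ¬ mark Z H c) ∧ H a b)
termination_by b

lemma mark_iff (Z : ℕ → Prop) (H : ℕ → ℕ → Prop) (b : ℕ) :
    mark Z H b ↔ Z b ∧ ((∀ c < b, ¬ Z c) ∨
    ∃ a, ∃ _ : a < b, mark Z H a ∧ (∀ c, ∀ _ : c < b, a < c → ¬ mark Z H c) ∧ H a b) := by
  rw [mark]

lemma mark_exists (Z : ℕ → Prop) (H : ℕ → ℕ → Prop) {b : ℕ} (hb : Z b) :
    ∃ a ≤ b, mark Z H a := by
  have hex : ∃ b, Z b := ⟨b, hb⟩
  refine ⟨Nat.find hex, Nat.find_min' hex hb, ?_⟩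
  rw [mark_iff]
  exact ⟨Nat.find_spec hex, Or.inl fun c hc => Nat.find_min hex hc⟩

lemma mark_prev (Z : ℕ → Prop) (H : ℕ → ℕ → Prop) {a' b : ℕ} (hb : mark Z H b)
    (ha' : mark Z H a') (hab : a' < b) : ∃ a, a' ≤ a ∧ a < b ∧ H a b := by
  rw [mark_iff] at hb
  obtain ⟨_, h | ⟨a, hlt, _, h3, h4⟩⟩ := hb
  · exact absurd ((mark_iff Z H a').mp ha').1 (h a' hab)
  · refine ⟨a, ?_, hlt, h4⟩
    by_contra hc
    exact h3 a' hab (not_le.mp hc) ha'

lemma not_H_of_no_mark (Z : ℕ → Prop) (H : ℕ → ℕ → Prop) {a b : ℕ} (ha : mark Z H a)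
    (hb : Z b) (hab : a < b) (hno : ∀ c, a < c → c ≤ b → ¬ mark Z H c) : ¬ H a b := by
  intro hH
  refine hno b hab le_rfl ?_
  rw [mark_iff]
  exact ⟨hb, Or.inr ⟨a, hab, ha, fun c hc hac => hno c hac hc.le, hH⟩⟩

/-! ### N-shapes -/

/-- `M` contains an `N`-shaped pattern with `k` letters (columns, in arbitrary order), all rows in
strictly increasing time order: first run `p 0 < ⋯ < p (k-1)`, second run
`q (k-1) < ⋯ < q 0`, third run `s 0 < ⋯ < s (k-1)`. -/
def HasN {Λ : Type} (M : Finset (ℕ × Λ)) (k : ℕ) : Prop :=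
  ∃ (x : ℕ → Λ) (p q s : ℕ → ℕ),
    (∀ i < k, ∀ j < k, x i = x j → i = j) ∧
    (∀ i j, i < j → j < k → p i < p j ∧ q j < q i ∧ s i < s j) ∧
    (∀ i < k, ∀ j < k, p i < q j ∧ q i < s j) ∧
    (∀ i < k, (p i, x i) ∈ M ∧ (q i, x i) ∈ M ∧ (s i, x i) ∈ M)

lemma base_bound {Λ : Type} (M : Finset (ℕ × Λ)) (h : ¬ HasN M 1) :
    M.card ≤ 2 * (M.image Prod.snd).card := by
  refine card_le_mul_card_image M 2 ?_
  intro y _
  by_contra hc
  replace hc := not_le.mp hc
  apply h
  set F := M.filter (fun e => e.2 = y) with hF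
  have hinj : Set.InjOn Prod.fst (F : Set (ℕ × Λ)) := by
    intro e he e' he' h
    have h1 := (mem_filter.mp (mem_coe.mp he)).2
    have h2 := (mem_filter.mp (mem_coe.mp he')).2
    exact Prod.ext h (h1.trans h2.symm)
  have hcard : (F.image Prod.fst).card = F.card := card_image_of_injOn hinj
  have hR : 2 < (F.image Prod.fst).card := by rw [hcard]; exact hc
  have hne : (F.image Prod.fst).Nonempty := card_pos.mp (by omega)
  set a := (F.image Prod.fst).min' hne with ha
  set b := (F.image Prod.fst).max' hne with hb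
  have h3 : 0 < (((F.image Prod.fst).erase a).erase b).card := by
    have h1 := pred_card_le_card_erase (s := F.image Prod.fst) (a := a)
    have h2 := pred_card_le_card_erase (s := (F.image Prod.fst).erase a) (a := b)
    omega
  obtain ⟨c, hc3⟩ := card_pos.mp h3
  obtain ⟨hcb, hc4⟩ := mem_erase.mp hc3
  obtain ⟨hca, hc5⟩ := mem_erase.mp hc4
  have hac : a < c := lt_of_le_of_ne (min'_le _ _ hc5) (Ne.symm hca)
  have hcb' : c < b := lt_of_le_of_ne (le_max' _ _ hc5) hcb
  have hmem : ∀ r ∈ F.image Prod.fst, (r, y) ∈ M := by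
    intro r hr
    obtain ⟨e, he, rfl⟩ := mem_image.mp hr
    have h2 := (mem_filter.mp he).2
    have h1 := (mem_filter.mp he).1
    rw [← h2]
    exact h1
  refine ⟨fun _ => y, fun _ => a, fun _ => c, fun _ => b, ?_, ?_, ?_, ?_⟩
  · intro i hi j hj _; omega
  · intro i j hij hj; omega
  · intro i _ j _; exact ⟨hac, hcb'⟩
  · intro i _
    exact ⟨hmem _ (min'_mem _ _), hmem _ hc5, hmem _ (max'_mem _ _)⟩

/-- **Linear bound for N-shapes** in 0/1 matrices with unordered columns. -/
theorem linear_bound (k : ℕ) : ∃ c : ℕ, ∀ (Λ : Type) (M : Finset (ℕ × Λ)), ¬ HasN M (k + 1) →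
    M.card ≤ c * ((M.image Prod.fst).card + (M.image Prod.snd).card) := by
  induction k with
  | zero =>
    refine ⟨2, fun Λ M h => ?_⟩
    have := base_bound M h
    omega
  | succ k ih =>
    obtain ⟨c, hc⟩ := ih
    refine ⟨3 * c + k + 2, fun Λ M hM => ?_⟩
    set L := M.image Prod.snd with hL
    -- an injection of the letters
    obtain ⟨e, he⟩ : ∃ e : Λ → ℕ, Set.InjOn e (L : Set Λ) :=
      Set.countable_iff_exists_injOn.mp (Finset.countable_toSet L)
    -- last rows
    set l : Λ → ℕ := fun x => (M.filter (fun m => m.2 = x)).sup Prod.fst with hl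
    have hlle : ∀ r x, (r, x) ∈ M → r ≤ l x := by
      intro r x hr
      exact le_sup (f := Prod.fst) (mem_filter.mpr ⟨hr, rfl⟩ : (r, x) ∈ M.filter (fun m => m.2 = x))
    have hlmem : ∀ x ∈ L, (l x, x) ∈ M := by
      intro x hx
      obtain ⟨m, hm, hmx⟩ := mem_image.mp hx
      have hne : (M.filter (fun m => m.2 = x)).Nonempty := ⟨m, mem_filter.mpr ⟨hm, hmx⟩⟩
      obtain ⟨m', hm', hsup⟩ := exists_mem_eq_sup _ hne Prod.fst
      obtain ⟨h1, h2⟩ := mem_filter.mp hm'
      have : (l x, x) = m' := by
        rw [hl]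
        simp only
        rw [hsup, ← h2]
      rw [this]; exact h1
    set key : Λ → Lex (ℕ × ℕ) := fun x => toLex (l x, e x) with hkey
    have hkeyle : ∀ x y, key x < key y → l x ≤ l y := by
      intro x y hxy
      rw [hkey] at hxy
      simp only [Prod.Lex.toLex_lt_toLex] at hxy
      rcases hxy with h | ⟨h, _⟩
      · exact h.le
      · exact h.le
    set M0 := M.filter (fun m => m.1 < l m.2) with hM0
    have hM0M : M0 ⊆ M := filter_subset _ _
    have hM0card : M.card ≤ M0.card + L.card := by
      have h1 : (M.filter (fun m => ¬ m.1 < l m.2)).card ≤ L.card := by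
        refine card_le_card_of_injOn Prod.snd ?_ ?_
        · intro m hm
          exact mem_coe.mpr (mem_image.mpr ⟨m, (mem_filter.mp (mem_coe.mp hm)).1, rfl⟩)
        · intro m hm m' hm' h
          obtain ⟨h1, h2⟩ := mem_filter.mp (mem_coe.mp hm)
          obtain ⟨h3, h4⟩ := mem_filter.mp (mem_coe.mp hm')
          have h5 := hlle m.1 m.2 h1
          have h6 := hlle m'.1 m'.2 h3
          refine Prod.ext ?_ h
          rw [h] at h2 h5
          omega
      have h2 := card_filter_add_card_filter_not (s := M) (fun m => m.1 < l m.2)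
      rw [← hM0] at h2
      omega
    -- heavy letters and marks
    set hv : Λ → ℕ → ℕ → Finset Λ := fun x a b => L.filter (fun y => key x < key y ∧
      ∃ r r', a < r ∧ r < r' ∧ r' < b ∧ (r, y) ∈ M0 ∧ (r', y) ∈ M0) with hhv
    have hvmono : ∀ x a b a' b', a ≤ a' → b' ≤ b → hv x a' b' ⊆ hv x a b := by
      intro x a b a' b' h1 h2 y hy
      rw [hhv] at hy ⊢
      simp only [mem_filter] at hy ⊢
      obtain ⟨h3, h4, r, r', h5, h6, h7, h8, h9⟩ := hy
      exact ⟨h3, h4, r, r', by omega, h6, by omega, h8, h9⟩
    set mk : Λ → ℕ → Prop := fun x => mark (fun r => (r, x) ∈ M0)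
      (fun a b => k + 1 ≤ (hv x a b).card) with hmk
    set M' := M0.filter (fun m => mk m.2 m.1) with hM'
    have hM'M0 : M' ⊆ M0 := filter_subset _ _
    have hmkM0 : ∀ r x, mk x r → (r, x) ∈ M' := by
      intro r x h
      exact mem_filter.mpr ⟨((mark_iff _ _ _).mp h).1, h⟩
    -- no N-shape with k+1 letters in M'
    have hno : ¬ HasN M' (k + 1) := by
      rintro ⟨x, p, q, s, hx, hmono, hcross, hmem⟩
      apply hM
      have hk := hmem k (by omega)
      have hmp : mk (x k) (p k) := (mem_filter.mp hk.1).2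
      have hmq : mk (x k) (q k) := (mem_filter.mp hk.2.1).2
      obtain ⟨a, ha1, ha2, ha3⟩ := mark_prev _ _ hmq hmp (hcross k (by omega) k (by omega)).1
      have hex : ∃ y ∈ hv (x k) a (q k), y ∉ (range k).image x := by
        by_contra hcon
        push Not at hcon
        have h1 : (hv (x k) a (q k)).card ≤ ((range k).image x).card :=
          card_le_card fun y hy => hcon y hy
        have h2 : ((range k).image x).card ≤ k := by
          have := card_image_le (s := range k) (f := x)
          rwa [card_range] at this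
        omega
      obtain ⟨y, hy1, hy2⟩ := hex
      rw [hhv] at hy1
      simp only [mem_filter] at hy1
      obtain ⟨hyL, hyk, r, r', hr1, hr2, hr3, hr4, hr5⟩ := hy1
      have hyne : ∀ i < k + 1, x i ≠ y := by
        intro i hi heq
        rcases Nat.lt_succ_iff_lt_or_eq.mp hi with h | h
        · exact hy2 (mem_image.mpr ⟨i, mem_range.mpr h, heq⟩)
        · subst h
          rw [heq] at hyk
          exact lt_irrefl _ hyk
      have hsk : s k < l y := by
        have h1 := (mem_filter.mp (hM'M0 hk.2.2)).2
        exact lt_of_lt_of_le h1 (hkeyle _ _ hyk)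
      have hr'l : r' < l y := (mem_filter.mp hr5).2
      have hp : ∀ i < k + 1, p i ≤ p k := by
        intro i hi
        rcases Nat.lt_succ_iff_lt_or_eq.mp hi with h | h
        · exact (hmono i k h (by omega)).1.le
        · rw [h]
      have hq : ∀ i < k + 1, q k ≤ q i := by
        intro i hi
        rcases Nat.lt_succ_iff_lt_or_eq.mp hi with h | h
        · exact (hmono i k h (by omega)).2.1.le
        · rw [h]
      have hs : ∀ i < k + 1, s i ≤ s k := by
        intro i hi
        rcases Nat.lt_succ_iff_lt_or_eq.mp hi with h | h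
        · exact (hmono i k h (by omega)).2.2.le
        · rw [h]
      refine ⟨fun i => if i < k + 1 then x i else y, fun i => if i < k + 1 then p i else r,
        fun i => if i < k + 1 then q i else r', fun i => if i < k + 1 then s i else l y,
        ?_, ?_, ?_, ?_⟩
      · intro i hi j hj hij
        by_cases h1 : i < k + 1 <;> by_cases h2 : j < k + 1
        · simp only [h1, h2, if_true] at hij
          exact hx i h1 j h2 hij
        · simp only [h1, h2, if_true, if_false] at hij
          exact absurd hij (hyne i h1)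
        · simp only [h1, h2, if_true, if_false] at hij
          exact absurd hij.symm (hyne j h2)
        · omega
      · intro i j hij hj
        by_cases h2 : j < k + 1
        · have h1 : i < k + 1 := by omega
          simp only [h1, h2, if_true]
          exact hmono i j hij h2
        · have h1 : i < k + 1 := by omega
          simp only [h1, h2, if_true, if_false]
          have := hp i h1
          have := hq i h1
          have := hs i h1
          refine ⟨by omega, by omega, by omega⟩
      · intro i hi j hj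
        by_cases h1 : i < k + 1 <;> by_cases h2 : j < k + 1
        · simp only [h1, h2, if_true]
          exact hcross i h1 j h2
        · simp only [h1, h2, if_true, if_false]
          have := hp i h1
          have := (hcross i h1 k (by omega)).2
          refine ⟨by omega, by omega⟩
        · simp only [h1, h2, if_true, if_false]
          have := hq j h2
          have := (hcross k (by omega) j h2).2
          refine ⟨by omega, by omega⟩
        · simp only [h1, h2, if_false]
          exact ⟨hr2, hr'l⟩
      · intro i hi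
        by_cases h1 : i < k + 1
        · simp only [h1, if_true]
          obtain ⟨h2, h3, h4⟩ := hmem i h1
          exact ⟨hM0M (hM'M0 h2), hM0M (hM'M0 h3), hM0M (hM'M0 h4)⟩
        · simp only [h1, if_false]
          exact ⟨hM0M hr4, hM0M hr5, hlmem y hyL⟩
    have hM'card := hc Λ M' hno
    have hM'rows : (M'.image Prod.fst).card ≤ (M.image Prod.fst).card :=
      card_le_card (image_subset_image (hM'M0.trans hM0M))
    have hM'cols : (M'.image Prod.snd).card ≤ L.card :=
      card_le_card (image_subset_image (hM'M0.trans hM0M))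
    -- labels
    set lab : Λ → ℕ → ℕ := fun x r => Nat.findGreatest (mk x) r with hlab
    have hlabmk : ∀ r x, (r, x) ∈ M0 → mk x (lab x r) ∧ lab x r ≤ r ∧
        ∀ c, lab x r < c → c ≤ r → ¬ mk x c := by
      intro r x h
      obtain ⟨a, ha, hma⟩ := mark_exists (fun r => (r, x) ∈ M0)
        (fun a b => k + 1 ≤ (hv x a b).card) (b := r) h
      exact ⟨Nat.findGreatest_spec ha hma, Nat.findGreatest_le _,
        fun c hc1 hc2 => Nat.findGreatest_is_greatest hc1 hc2⟩
    set M1 : Finset (ℕ × Λ × ℕ) := M0.image (fun m => (m.1, m.2, lab m.2 m.1)) with hM1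
    have hM1mem : ∀ r x j, (r, x, j) ∈ M1 → (r, x) ∈ M0 ∧ lab x r = j := by
      intro r x j h
      obtain ⟨m, hm, hmm⟩ := mem_image.mp h
      simp only [Prod.mk.injEq] at hmm
      obtain ⟨rfl, rfl, rfl⟩ := hmm
      exact ⟨hm, rfl⟩
    have hM1card : M1.card = M0.card := by
      apply card_image_of_injective
      intro m m' h
      simp only [Prod.mk.injEq] at h
      exact Prod.ext h.1 h.2.1
    have hE := lemmaE key k M1.card M1 le_rfl
      (by
        intro m hm m' hm' h
        obtain ⟨r, x, i⟩ := m
        obtain ⟨r', x', i'⟩ := m'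
        simp only at h ⊢
        have h1 : x ∈ L := mem_image.mpr ⟨_, hM0M (hM1mem _ _ _ hm).1, rfl⟩
        have h2 : x' ∈ L := mem_image.mpr ⟨_, hM0M (hM1mem _ _ _ hm').1, rfl⟩
        rw [hkey] at h
        simp only [EmbeddingLike.apply_eq_iff_eq, Prod.mk.injEq] at h
        exact he (mem_coe.mpr h1) (mem_coe.mpr h2) h.2)
      (by
        intro r x i i' h h'
        rw [← (hM1mem _ _ _ h).2, ← (hM1mem _ _ _ h').2])
      (by
        intro x i i' r1 r2 r3 h1 h2 h3 h13 h32
        have e1 := (hM1mem _ _ _ h1).2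
        have e2 := (hM1mem _ _ _ h2).2
        have e3 := (hM1mem _ _ _ h3).2
        have m1 : lab x r1 ≤ lab x r3 := Nat.findGreatest_mono_right _ h13.le
        have m2 : lab x r3 ≤ lab x r2 := Nat.findGreatest_mono_right _ h32.le
        omega)
      (by
        intro x i r1 r2 h1 h2 h12
        obtain ⟨a1, a2⟩ := hM1mem _ _ _ h1
        obtain ⟨b1, b2⟩ := hM1mem _ _ _ h2
        obtain ⟨c1, c2, c3⟩ := hlabmk r1 x a1
        obtain ⟨d1, d2, d3⟩ := hlabmk r2 x b1
        rw [a2] at c1 c2 c3
        rw [b2] at d1 d2 d3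
        have hnH := not_H_of_no_mark _ _ d1 b1 (by omega) d3
        have hsub : heavy key M1 x r1 r2 ⊆ hv x i r2 := by
          intro y hy
          simp only [heavy, mem_filter, mem_image] at hy
          obtain ⟨_, hk, e1, he1, e2, he2, hc1, hc2, hl1, hl2, hl3⟩ := hy
          obtain ⟨u1, y1, i1⟩ := e1
          obtain ⟨u2, y2, i2⟩ := e2
          simp only at hc1 hc2 hl1 hl2 hl3
          subst hc1
          subst hc2
          rw [hhv]
          simp only [mem_filter]
          exact ⟨mem_image.mpr ⟨_, hM0M (hM1mem _ _ _ he1).1, rfl⟩, hk, u1, u2, by omega, hl2, hl3,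
            (hM1mem _ _ _ he1).1, (hM1mem _ _ _ he2).1⟩
        have := card_le_card hsub
        omega)
    have hsegs : (M1.image Prod.snd).card ≤ M'.card := by
      refine card_le_card_of_injOn (fun t => (t.2, t.1)) ?_ ?_
      · intro t ht
        obtain ⟨m, hm, rfl⟩ := mem_image.mp (mem_coe.mp ht)
        obtain ⟨r, x, i⟩ := m
        obtain ⟨a1, a2⟩ := hM1mem _ _ _ hm
        obtain ⟨c1, c2, c3⟩ := hlabmk r x a1
        rw [a2] at c1
        exact mem_coe.mpr (hmkM0 _ _ c1)
      · intro t _ t' _ h
        simp only [Prod.mk.injEq] at h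
        exact Prod.ext h.2 h.1
    have hrows1 : (M1.image Prod.fst).card ≤ (M.image Prod.fst).card := by
      apply card_le_card
      intro r hr
      obtain ⟨m, hm, rfl⟩ := mem_image.mp hr
      obtain ⟨r, x, i⟩ := m
      exact mem_image.mpr ⟨_, hM0M (hM1mem _ _ _ hm).1, rfl⟩
    -- arithmetic
    set R := (M.image Prod.fst).card
    set C := L.card
    have i1 : M'.card ≤ c * (R + C) :=
      le_trans hM'card (Nat.mul_le_mul_left _ (by omega))
    have i2 : (k + 1) * (M1.image Prod.fst).card ≤ (k + 1) * R := Nat.mul_le_mul_left _ hrows1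
    have i3 : (3 * c + k + 2) * (R + C) = 3 * (c * (R + C)) + (k + 1) * R + (k + 1) * C + R + C := by
      ring
    rw [i3]
    have i4 : 0 ≤ (k + 1) * C := Nat.zero_le _
    omega

end Pool.Agent.NShape
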